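import Pool.Agent.H97.HV.Targets
import Pool.Agent.H45.NF.PA
import Pool.Agent.H7.HD.All8

/-!
# PVA. Definability from ordinals and an element of `V_ γ`
-/

open Ordinal Cardinal Order Set
open scoped ZFSet

universe u

namespace Pool.Agent.H14.HV

open _root_.HD HD.PRK HD.HV Pool.Agent.H45.NF

theorem pv_of_od {γ : Ordinal.{u}} {x : ZFSet.{u}} (hγ : 0 < γ) (hx : OD x) : PV γ x := by
  refine ⟨∅, ?_, ODp.of_dz (Q := fun v => v 0 = x) (DZ.od (R := fun r v => v 0 = r) hx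
    (DZ.eq 1 0)) fun y => Iff.rfl⟩
  rw [ZFSet.mem_vonNeumann, ZFSet.rank_empty]
  exact hγ

theorem pv_mem {γ : Ordinal.{u}} {x : ZFSet.{u}} (hx : x ∈ V_ γ) : PV γ x :=
  ⟨x, hx, ODp.of_dz (Q := fun v => v 0 = v 1) (DZ.eq 0 1) fun _ => Iff.rfl⟩

theorem nv_iff {γ : Ordinal.{u}} {x : ZFSet.{u}} : NV γ x ↔ PV γ x ∧ ∀ y ∈ x, NV γ y :=
  ZFSet.hereditarily_iff

theorem nv_mem {γ : Ordinal.{u}} (x : ZFSet.{u}) : x ∈ V_ γ → NV γ x := by
  induction x using ZFSet.inductionOn with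
  | _ x ih =>
    intro hx
    refine nv_iff.2 ⟨pv_mem hx, fun y hy => ih y hy ?_⟩
    rw [ZFSet.mem_vonNeumann] at hx ⊢
    exact (ZFSet.rank_lt_of_mem hy).trans hx

theorem pv_mono {γ γ' : Ordinal.{u}} {x : ZFSet.{u}} (h : γ ≤ γ') (hx : PV γ x) : PV γ' x := by
  obtain ⟨a, ha, h1⟩ := hx
  refine ⟨a, ?_, h1⟩
  rw [ZFSet.mem_vonNeumann] at ha ⊢
  exact ha.trans_le h

theorem nv_mono {γ γ' : Ordinal.{u}} (h : γ ≤ γ') (x : ZFSet.{u}) : NV γ x → NV γ' x := by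
  induction x using ZFSet.inductionOn with
  | _ x ih =>
    intro hx
    exact nv_iff.2 ⟨pv_mono h (nv_iff.1 hx).1, fun y hy => ih y hy ((nv_iff.1 hx).2 y hy)⟩

theorem nv_ord {γ : Ordinal.{u}} (hγ : 0 < γ) (a : Ordinal.{u}) : NV γ a.toZFSet := by
  induction a using WellFoundedLT.induction with
  | _ a ih =>
    refine nv_iff.2 ⟨pv_of_od hγ (OD.ordinal a), fun y hy => ?_⟩
    obtain ⟨b, hb, rfl⟩ := mem_toZFSet_iff.1 hy
    exact ih b hb

theorem pv_comp {γ : Ordinal.{u}} (hγ : IsSuccLimit γ) {x y z : ZFSet.{u}} (hx : PV γ x)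
    (hy : PV γ y) (hz : NF.ODp (ZFSet.pair x y) z) : PV γ z := by
  obtain ⟨a, ha, hx⟩ := hx
  obtain ⟨b, hb, hy⟩ := hy
  obtain ⟨Q1, hQ1, h1⟩ := ODp.def hx
  obtain ⟨Q2, hQ2, h2⟩ := ODp.def hy
  obtain ⟨Q3, hQ3, h3⟩ := ODp.def hz
  refine ⟨ZFSet.pair a b, ?_, ODp.of_dz (Q := fun v => ∃ a' b' x' y' p : ZFSet.{u},
    v 1 = ZFSet.pair a' b' ∧ Q1 (cons x' fun _ => a') ∧ Q2 (cons y' fun _ => b') ∧
      p = ZFSet.pair x' y' ∧ Q3 (cons (v 0) fun _ => p)) ?_ fun w => ?_⟩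
  · rw [ZFSet.mem_vonNeumann] at ha hb ⊢
    have h4 : ZFSet.pair a b = {{a}, {a, b}} := rfl
    rw [h4, ZFSet.rank_pair, ZFSet.rank_singleton, ZFSet.rank_pair]
    exact max_lt (hγ.succ_lt (hγ.succ_lt ha))
      (hγ.succ_lt (max_lt (hγ.succ_lt ha) (hγ.succ_lt hb)))
  · refine DZ.ex (DZ.ex (DZ.ex (DZ.ex (DZ.ex ?_))))
    -- order of the variables: p, y', x', b', a', v 0, v 1
    refine (loc_pair 6 4 3).dz.and (DZ.and ?_ (DZ.and ?_ ((loc_pair 0 2 1).dz.and ?_)))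
    · refine (hQ1.ren fun n => if n = 0 then 2 else 4).congr fun v => ?_
      have : (cons (v 2) fun _ => v 4) = fun n => v (if n = 0 then 2 else 4) := by
        funext n
        rcases n with _ | n <;> simp
      exact this ▸ Iff.rfl
    · refine (hQ2.ren fun n => if n = 0 then 1 else 3).congr fun v => ?_
      have : (cons (v 1) fun _ => v 3) = fun n => v (if n = 0 then 1 else 3) := by
        funext n
        rcases n with _ | n <;> simp
      exact this ▸ Iff.rfl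
    · refine (hQ3.ren fun n => if n = 0 then 5 else 0).congr fun v => ?_
      have : (cons (v 5) fun _ => v 0) = fun n => v (if n = 0 then 5 else 0) := by
        funext n
        rcases n with _ | n <;> simp
      exact this ▸ Iff.rfl
  · constructor
    · rintro ⟨a', b', x', y', p, h4, h5, h6, rfl, h7⟩
      obtain ⟨rfl, rfl⟩ := ZFSet.pair_injective h4
      rw [(h1 x').1 h5, (h2 y').1 h6] at h7
      exact (h3 w).1 h7
    · rintro rfl
      exact ⟨a, b, x, y, _, rfl, (h1 x).2 rfl, (h2 y).2 rfl, rfl, (h3 w).2 rfl⟩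

theorem pf_PVA : T_PVA.{u} := by
  refine ⟨fun γ x hγ hx => pv_of_od hγ hx, fun γ _ x hx => nv_mem x hx,
    fun γ hγ x y z hx hy hz => pv_comp hγ hx hy hz,
    fun γ γ' x h => ⟨pv_mono h, nv_mono h x⟩, fun γ κ x hγ hx h => ?_⟩
  refine nv_iff.2 ⟨h, fun y hy => ?_⟩
  obtain ⟨a, -, rfl⟩ := mem_toZFSet_iff.1 (hx hy)
  exact nv_ord hγ a

end Pool.Agent.H14.HV
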