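import Pool.Agent.H14.HV.PVA
import Pool.Agent.H3.HD.DM

/-!
# PVD. The classes of the sets definable from ordinals and an element of `V_ γ` are definable
-/

open Ordinal Cardinal Order Set
open scoped ZFSet

universe u

namespace Pool.Agent.H14.HV

open _root_.HD HD.PRK HD.HV Pool.Agent.H45.NF

theorem pv_iff {γ : Ordinal.{u}} {x : ZFSet.{u}} : PV γ x ↔ ∃ a ∈ V_ γ, ∃ R, OD R ∧
    ∀ z, ∀ w, w = ZFSet.pair a z → (w ∈ R ↔ z = x) := by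
  constructor
  · rintro ⟨a, ha, h⟩
    obtain ⟨R, hR, h1⟩ := (pf_pa a x).1 h
    refine ⟨a, ha, R, hR, fun z w hw => ?_⟩
    rw [hw]
    exact h1 z
  · rintro ⟨a, ha, R, hR, h1⟩
    exact ⟨a, ha, (pf_pa a x).2 ⟨R, hR, fun z => h1 z _ rfl⟩⟩

theorem dz_pv (γ : Ordinal.{u}) (i : ℕ) : DZ fun v => PV γ (v i) := by
  obtain ⟨en, hen⟩ := All.en.{u}
  refine DZ.congr (P := fun v => ∃ a ∈ V_ γ, ∃ R, OD R ∧
    ∀ z, ∀ w, w = ZFSet.pair a z → (w ∈ R ↔ z = v i)) ?_ fun v => pv_iff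
  refine DZ.od (R := fun t v => ∃ a ∈ t, ∃ R, OD R ∧
    ∀ z, ∀ w, w = ZFSet.pair a z → (w ∈ R ↔ z = v i)) (NF.od_V γ) ?_
  -- order of the variables: w, z, R, a, t, v
  refine DZ.exMem 0 (DZ.ex ((hen.dzOD 0).and (DZ.all (DZ.all ?_))))
  exact (loc_pair 0 3 1).dz.imp ((DZ.mem 0 2).iff (DZ.eq 1 (i + 5)))

theorem nv_tr {γ : Ordinal.{u}} {x : ZFSet.{u}} : NV γ x ↔ PV γ x ∧
    ∃ t : ZFSet.{u}, (∀ y ∈ t, ∀ z ∈ y, z ∈ t) ∧ (∀ y ∈ x, y ∈ t) ∧ ∀ y ∈ t, PV γ y := by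
  constructor
  · intro hx
    refine ⟨(nv_iff.1 hx).1, ZFSet.sep (NV γ) (V_ x.rank), ?_, ?_, ?_⟩
    · intro y hy z hz
      rw [ZFSet.mem_sep] at hy ⊢
      exact ⟨mem_V_of_mem hz hy.1, (nv_iff.1 hy.2).2 z hz⟩
    · intro y hy
      rw [ZFSet.mem_sep, ZFSet.mem_vonNeumann]
      exact ⟨ZFSet.rank_lt_of_mem hy, (nv_iff.1 hx).2 y hy⟩
    · intro y hy
      exact (nv_iff.1 (ZFSet.mem_sep.1 hy).2).1
  · rintro ⟨h1, t, h2, h3, h4⟩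
    have h5 : ∀ y : ZFSet.{u}, y ∈ t → NV γ y := by
      intro y
      induction y using ZFSet.inductionOn with
      | _ y ih =>
        intro hy
        exact nv_iff.2 ⟨h4 y hy, fun z hz => ih z hz (h2 y hy z hz)⟩
    exact nv_iff.2 ⟨h1, fun y hy => h5 y (h3 y hy)⟩

theorem dz_nv (γ : Ordinal.{u}) (i : ℕ) : DZ fun v => NV γ (v i) := by
  refine DZ.congr (P := fun v => PV γ (v i) ∧ ∃ t : ZFSet.{u}, (∀ y ∈ t, ∀ z ∈ y, z ∈ t) ∧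
    (∀ y ∈ v i, y ∈ t) ∧ ∀ y ∈ t, PV γ y) ?_ fun v => nv_tr
  refine DZ.and (dz_pv γ i) (DZ.ex (DZ.and ?_ (DZ.and ?_ ?_)))
  · exact DZ.allMem 0 (DZ.allMem 0 (DZ.mem 0 2))
  · exact DZ.allMem (i + 1) (DZ.mem 0 1)
  · exact DZ.allMem 0 (dz_pv γ 0)

theorem pf_PVD : T_PVD.{u} := fun γ => ⟨dz_pv γ 0, dz_nv γ 0⟩

end Pool.Agent.H14.HV
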